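import Pool.Agent.V7H94.Trk.Series

set_option autoImplicit false

/-!
# Gaussian mollification with Cauchy estimates
-/

open Set Filter Topology MeasureTheory

namespace Pool.Agent.V7H94.Trk

/-- the Gaussian as an entire function -/
noncomputable def gC (a : ℝ) (z : ℂ) : ℂ := ((√(a / Real.pi) : ℝ) : ℂ) * Complex.exp (-(a : ℂ) * z ^ 2)

theorem gC_contDiff (a : ℝ) {n : WithTop ℕ∞} : ContDiff ℂ n (gC a) := by
  unfold gC
  exact contDiff_const.mul (Complex.contDiff_exp.comp (contDiff_const.mul (contDiff_id.pow 2)))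

/-- the `i`-th derivative of the Gaussian on the real line -/
noncomputable def gi (a : ℝ) (i : ℕ) (t : ℝ) : ℝ := (iteratedDeriv i (gC a) (t : ℂ)).re

theorem gi_deriv (a : ℝ) (i : ℕ) (t : ℝ) : HasDerivAt (gi a i) (gi a (i + 1) t) t := by
  have h : HasDerivAt (iteratedDeriv i (gC a)) (iteratedDeriv (i + 1) (gC a) (t : ℂ)) (t : ℂ) := by
    rw [iteratedDeriv_succ]
    have hd : Differentiable ℂ (iteratedDeriv i (gC a)) :=
      (gC_contDiff a (n := (⊤ : ℕ∞))).differentiable_iteratedDeriv i (by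
        exact_mod_cast ENat.natCast_lt_top i)
    exact (hd (t : ℂ)).hasDerivAt
  exact h.real_of_complex

theorem gi_continuous (a : ℝ) (i : ℕ) : Continuous (gi a i) :=
  continuous_iff_continuousAt.2 fun t => (gi_deriv a i t).continuousAt

theorem gi_zero (a : ℝ) (t : ℝ) : gi a 0 t = √(a / Real.pi) * Real.exp (-a * t ^ 2) := by
  unfold gi gC
  rw [iteratedDeriv_zero]
  have : Complex.exp (-(a : ℂ) * (t : ℂ) ^ 2) = ((Real.exp (-a * t ^ 2) : ℝ) : ℂ) := by
    push_cast; rfl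
  rw [this, ← Complex.ofReal_mul, Complex.ofReal_re]

theorem gC_norm {a : ℝ} (ha : 0 < a) {u ρ m : ℝ} (hρ : 0 ≤ ρ) (hm : m ≤ u ^ 2 - 2 * |u| * ρ - ρ ^ 2)
    {z : ℂ} (hz : ‖z - (u : ℂ)‖ = ρ) : ‖gC a z‖ ≤ √(a / Real.pi) * Real.exp (-(a * m)) := by
  unfold gC
  rw [norm_mul, Complex.norm_real, Real.norm_of_nonneg (Real.sqrt_nonneg _), Complex.norm_exp]
  gcongr
  set p := z.re - u with hp
  have h1 : p ^ 2 + z.im ^ 2 = ρ ^ 2 := by
    rw [← hz, ← Complex.normSq_eq_norm_sq, Complex.normSq_apply]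
    simp [hp]
    ring
  have h2 : (-(a : ℂ) * z ^ 2).re = -(a * (z.re ^ 2 - z.im ^ 2)) := by
    simp [pow_two, Complex.mul_re, Complex.mul_im]
  rw [h2]
  have h3 : z.re = u + p := by rw [hp]; ring
  have h4 : |p| ≤ ρ := by
    apply abs_le_of_sq_le_sq _ hρ
    nlinarith [sq_nonneg z.im]
  have h5 : -(|u| * ρ) ≤ u * p := by
    have := neg_abs_le (u * p)
    rw [abs_mul] at this
    nlinarith [mul_le_mul_of_nonneg_left h4 (abs_nonneg u)]
  have h6 : m ≤ z.re ^ 2 - z.im ^ 2 := by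
    rw [h3]
    nlinarith [sq_nonneg p]
  nlinarith

theorem gi_bound {a : ℝ} (ha : 0 < a) {u ρ m : ℝ} (hρ : 0 < ρ)
    (hm : m ≤ u ^ 2 - 2 * |u| * ρ - ρ ^ 2) (i : ℕ) :
    |gi a i u| ≤ √(a / Real.pi) * Real.exp (-(a * m)) * (i.factorial / ρ ^ i) := by
  have h := Complex.norm_iteratedDeriv_le_of_forall_mem_sphere_norm_le (c := (u : ℂ)) (R := ρ)
    (C := √(a / Real.pi) * Real.exp (-(a * m))) (f := gC a) i hρ
    ((gC_contDiff a (n := 1)).differentiable (by norm_num)).diffContOnCl (by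
      intro z hz
      exact gC_norm ha hρ.le hm (by simpa [dist_eq_norm] using hz))
  refine (Complex.abs_re_le_norm _).trans (h.trans (le_of_eq ?_))
  ring

theorem glob (u ρ : ℝ) : -(2 * ρ ^ 2) ≤ u ^ 2 - 2 * |u| * ρ - ρ ^ 2 := by
  have : u ^ 2 = |u| ^ 2 := (sq_abs u).symm
  rw [this]
  nlinarith [sq_nonneg (|u| - ρ)]

theorem away {u σ : ℝ} (hσ : 0 < σ) (hu : σ ≤ |u|) :
    σ ^ 2 / 2 ≤ u ^ 2 - 2 * |u| * (σ / 8) - (σ / 8) ^ 2 := by
  have : u ^ 2 = |u| ^ 2 := (sq_abs u).symm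
  rw [this]
  nlinarith

/-- derivatives of the mollification of `f`, shifted by `σ` -/
noncomputable def W (a σ S : ℝ) (f : ℝ → ℝ) (i : ℕ) (t : ℝ) : ℝ :=
  ∫ s in (0 : ℝ)..S, f s * gi a i (t - σ - s)

theorem W_deriv {a : ℝ} (ha : 0 < a) (σ S : ℝ) {f : ℝ → ℝ} (hf : Continuous f) {A : ℝ}
    (hA : ∀ s, |f s| ≤ A) (i : ℕ) (t : ℝ) :
    HasDerivAt (W a σ S f i) (W a σ S f (i + 1) t) t := by
  have hA0 : 0 ≤ A := (abs_nonneg _).trans (hA 0)
  have hc : ∀ (j : ℕ) (x : ℝ), Continuous (fun s => f s * gi a j (x - σ - s)) := fun j x =>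
    hf.mul ((gi_continuous a j).comp (by fun_prop))
  set D : ℝ := √(a / Real.pi) * Real.exp (-(a * (-(2 * 1 ^ 2)))) * ((i + 1).factorial / 1 ^ (i + 1))
    with hD
  refine (intervalIntegral.hasDerivAt_integral_of_dominated_loc_of_deriv_le (F := fun x s => f s * gi a i (x - σ - s))
    (F' := fun x s => f s * gi a (i + 1) (x - σ - s)) (s := univ) (bound := fun _ => A * D)
    univ_mem ?_ ?_ ?_ ?_ ?_ ?_).2
  · exact Eventually.of_forall fun x => (hc i x).aestronglyMeasurable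
  · exact (hc i t).intervalIntegrable _ _
  · exact (hc (i + 1) t).aestronglyMeasurable
  · refine Eventually.of_forall fun s _ x _ => ?_
    rw [norm_mul, Real.norm_eq_abs, Real.norm_eq_abs]
    have := gi_bound ha (u := x - σ - s) one_pos (glob _ _) (i + 1)
    exact mul_le_mul (hA s) this (abs_nonneg _) hA0
  · exact intervalIntegrable_const
  · refine Eventually.of_forall fun s _ x _ => ?_
    have h1 : HasDerivAt (fun x : ℝ => x - σ - s) 1 x :=
      ((hasDerivAt_id x).sub_const σ).sub_const s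
    have h2 := (gi_deriv a i (x - σ - s)).comp x h1
    rw [mul_one] at h2
    exact h2.const_mul (f s)

theorem W_bound {a : ℝ} (ha : 0 < a) {σ S : ℝ} (hS : 0 ≤ S) {f : ℝ → ℝ} {A : ℝ}
    (hA : ∀ s, |f s| ≤ A) {ρ m t : ℝ} (hρ : 0 < ρ)
    (hm : ∀ s ∈ Icc (0 : ℝ) S, m ≤ (t - σ - s) ^ 2 - 2 * |t - σ - s| * ρ - ρ ^ 2) :
    Gr (A * S * √(a / Real.pi) * Real.exp (-(a * m))) ρ (fun i => W a σ S f i t) := by
  intro i
  have hA0 : 0 ≤ A := (abs_nonneg _).trans (hA 0)
  have h := intervalIntegral.norm_integral_le_of_norm_le_const (a := 0) (b := S)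
    (f := fun s => f s * gi a i (t - σ - s))
    (C := A * (√(a / Real.pi) * Real.exp (-(a * m)) * (i.factorial / ρ ^ i))) (by
      intro s hs
      rw [uIoc_of_le hS] at hs
      rw [norm_mul, Real.norm_eq_abs, Real.norm_eq_abs]
      exact mul_le_mul (hA s) (gi_bound ha hρ (hm s ⟨hs.1.le, hs.2⟩) i) (abs_nonneg _) hA0)
  rw [sub_zero, abs_of_nonneg hS, Real.norm_eq_abs] at h
  refine h.trans (le_of_eq ?_)
  ring

/-- global growth -/
theorem W_gr {a : ℝ} (ha : 0 < a) {σ S : ℝ} (hσ : 0 < σ) (hS : 0 ≤ S) {f : ℝ → ℝ} {A : ℝ}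
    (hA : ∀ s, |f s| ≤ A) (t : ℝ) :
    Gr (A * S * √(a / Real.pi) * Real.exp (a * σ ^ 2 / 32)) (σ / 8) (fun i => W a σ S f i t) := by
  have h := W_bound ha (σ := σ) hS hA (ρ := σ / 8) (m := -(2 * (σ / 8) ^ 2)) (t := t) (by positivity)
    (fun s _ => glob _ _)
  have e : -(a * (-(2 * (σ / 8) ^ 2))) = a * σ ^ 2 / 32 := by ring
  rwa [e] at h

/-- growth at time `0` -/
theorem W_gr_zero {a : ℝ} (ha : 0 < a) {σ S : ℝ} (hσ : 0 < σ) (hS : 0 ≤ S) {f : ℝ → ℝ} {A : ℝ}
    (hA : ∀ s, |f s| ≤ A) :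
    Gr (A * S * √(a / Real.pi) * Real.exp (-(a * σ ^ 2 / 2))) (σ / 8) (fun i => W a σ S f i 0) := by
  have h := W_bound ha (σ := σ) hS hA (ρ := σ / 8) (m := σ ^ 2 / 2) (t := 0) (by positivity)
    (fun s hs => away hσ (by rw [abs_of_nonpos (by linarith [hs.1])]; linarith [hs.1]))
  have e : -(a * (σ ^ 2 / 2)) = -(a * σ ^ 2 / 2) := by ring
  rwa [e] at h

theorem first_moment {a : ℝ} (ha : 0 < a) (u : ℝ) :
    |u| * Real.exp (-a * u ^ 2) ≤ 1 / √a * Real.exp (-(a / 2) * u ^ 2) := by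
  have h0 : 0 < √a := Real.sqrt_pos.2 ha
  have h1 : (√a) ^ 2 = a := Real.sq_sqrt ha.le
  set v := √a * |u| with hv
  have h2 : v ≤ Real.exp (v ^ 2 / 2) := by
    have := Real.add_one_le_exp (v ^ 2 / 2)
    nlinarith [sq_nonneg (v - 1)]
  have h3 : v ^ 2 = a * u ^ 2 := by rw [hv, mul_pow, h1, sq_abs]
  have h4 : Real.exp (-(a / 2) * u ^ 2) = Real.exp (v ^ 2 / 2) * Real.exp (-a * u ^ 2) := by
    rw [← Real.exp_add, h3]; congr 1; ring
  rw [h4]
  have h5 : |u| = 1 / √a * v := by rw [hv]; field_simp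
  rw [h5, mul_assoc]
  gcongr

theorem int_g {a : ℝ} (ha : 0 < a) (c : ℝ) : ∫ s, gi a 0 (c - s) = 1 := by
  have h1 : ∫ s, gi a 0 (c - s) = ∫ s, gi a 0 s := integral_sub_left_eq_self (gi a 0) volume c
  rw [h1]
  simp_rw [gi_zero]
  rw [integral_const_mul, integral_gaussian, ← Real.sqrt_mul (by positivity)]
  rw [div_mul_div_cancel₀ Real.pi_pos.ne', div_self ha.ne', Real.sqrt_one]

theorem integrable_g {a : ℝ} (ha : 0 < a) (c : ℝ) : Integrable (fun s => gi a 0 (c - s)) := by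
  have : Integrable (gi a 0) := by
    have h := (integrable_exp_neg_mul_sq ha).const_mul (√(a / Real.pi))
    refine h.congr (Eventually.of_forall fun t => ?_)
    exact (gi_zero a t).symm
  exact this.comp_sub_left c

theorem gi_nonneg {a : ℝ} (u : ℝ) : 0 ≤ gi a 0 u := by
  rw [gi_zero]; positivity

theorem approx {a : ℝ} (ha : 0 < a) {σ S : ℝ} (hσ : 0 ≤ σ) (hS : 0 ≤ S) {f : ℝ → ℝ}
    (hf : Continuous f) {K : ℝ} (hK : 0 ≤ K) (hL : ∀ s s', |f s - f s'| ≤ K * |s - s'|)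
    (h0 : ∀ s, s ≤ 0 → f s = 0) (h1 : ∀ s, S ≤ s → f s = 0) {A : ℝ} (hA : ∀ s, |f s| ≤ A) (t : ℝ) :
    |W a σ S f 0 t - f t| ≤ K * (σ + √2 / √a) := by
  have e1 : W a σ S f 0 t = ∫ s, f s * gi a 0 (t - σ - s) := by
    unfold W
    rw [intervalIntegral.integral_of_le hS]
    refine setIntegral_eq_integral_of_forall_compl_eq_zero ?_
    intro s hs
    rw [mem_Ioc, not_and_or, not_lt, not_le] at hs
    rcases hs with h | h
    · rw [h0 s h, zero_mul]
    · rw [h1 s h.le, zero_mul]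
  have i1 : Integrable (fun s => f s * gi a 0 (t - σ - s)) := by
    refine (integrable_g ha (t - σ)).bdd_mul (c := A) hf.aestronglyMeasurable ?_
    exact Eventually.of_forall fun s => by rw [Real.norm_eq_abs]; exact hA s
  have e2 : f t = ∫ s, f t * gi a 0 (t - σ - s) := by
    rw [integral_const_mul, int_g ha, mul_one]
  have e3 : W a σ S f 0 t - f t = ∫ s, (f s - f t) * gi a 0 (t - σ - s) := by
    rw [e1]
    conv_lhs => rw [e2]
    rw [← integral_sub i1 ((integrable_g ha (t - σ)).const_mul _)]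
    congr 1; funext s; ring
  rw [e3]
  have i2 : Integrable (fun s : ℝ => Real.exp (-(a / 2) * (t - σ - s) ^ 2)) :=
    (integrable_exp_neg_mul_sq (half_pos ha)).comp_sub_left (t - σ)
  have hb : ∀ s, ‖(f s - f t) * gi a 0 (t - σ - s)‖ ≤
      K * (σ * gi a 0 (t - σ - s) + √(a / Real.pi) * (1 / √a) *
        Real.exp (-(a / 2) * (t - σ - s) ^ 2)) := by
    intro s
    rw [norm_mul, Real.norm_eq_abs, Real.norm_of_nonneg (gi_nonneg _)]
    have h2 : |s - t| ≤ σ + |t - σ - s| := by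
      have : s - t = -(σ) + -(t - σ - s) := by ring
      rw [this]
      refine (abs_add_le _ _).trans ?_
      rw [abs_neg, abs_neg, abs_of_nonneg hσ]
    have h3 := first_moment ha (t - σ - s)
    calc |f s - f t| * gi a 0 (t - σ - s) ≤ (K * (σ + |t - σ - s|)) * gi a 0 (t - σ - s) := by
          refine mul_le_mul_of_nonneg_right ((hL s t).trans ?_) (gi_nonneg _)
          gcongr
      _ = K * (σ * gi a 0 (t - σ - s) + √(a / Real.pi) *
            (|t - σ - s| * Real.exp (-a * (t - σ - s) ^ 2))) := by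
          rw [gi_zero]; ring
      _ ≤ K * (σ * gi a 0 (t - σ - s) + √(a / Real.pi) *
            (1 / √a * Real.exp (-(a / 2) * (t - σ - s) ^ 2))) := by
          gcongr
      _ = _ := by ring
  have i3 : Integrable (fun s => K * (σ * gi a 0 (t - σ - s) + √(a / Real.pi) * (1 / √a) *
        Real.exp (-(a / 2) * (t - σ - s) ^ 2))) :=
    (((integrable_g ha (t - σ)).const_mul σ).add (i2.const_mul _)).const_mul K
  have h4 := norm_integral_le_of_norm_le i3 (Eventually.of_forall hb)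
  rw [Real.norm_eq_abs] at h4
  refine h4.trans (le_of_eq ?_)
  rw [integral_const_mul, integral_add ((integrable_g ha (t - σ)).const_mul σ) (i2.const_mul _),
    integral_const_mul, integral_const_mul, int_g ha]
  have e4 : ∫ s : ℝ, Real.exp (-(a / 2) * (t - σ - s) ^ 2) = √(Real.pi / (a / 2)) := by
    rw [← integral_gaussian]
    exact integral_sub_left_eq_self (fun s : ℝ => Real.exp (-(a / 2) * s ^ 2)) volume (t - σ)
  rw [e4, mul_one]
  congr 2
  have h5 : √(a / Real.pi) * √(Real.pi / (a / 2)) = √2 := by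
    rw [← Real.sqrt_mul (by positivity)]
    congr 1
    have := Real.pi_pos.ne'
    field_simp
  rw [mul_right_comm, h5]
  ring

/-- Lipschitz extension of `w`, supported in `[0, T + 1]`. -/
noncomputable def ext (w : ℝ → ℝ) (T s : ℝ) : ℝ :=
  w (max 0 (min s T)) * max 0 (1 - max 0 (s - T))

section
variable {w : ℝ → ℝ} {T M : ℝ}

theorem proj_mem (hT : 0 < T) (s : ℝ) : max 0 (min s T) ∈ Icc 0 T :=
  ⟨le_max_left _ _, max_le hT.le (min_le_right _ _)⟩

theorem proj_lip (s s' : ℝ) : |max 0 (min s T) - max 0 (min s' T)| ≤ |s - s'| := by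
  refine (abs_max_sub_max_le_max _ _ _ _).trans ?_
  rw [sub_self, abs_zero]
  refine max_le (abs_nonneg _) ((abs_min_sub_min_le_max _ _ _ _).trans ?_)
  rw [sub_self, abs_zero]
  exact max_le le_rfl (abs_nonneg _)

theorem cut_lip (s s' : ℝ) :
    |max 0 (1 - max 0 (s - T)) - max 0 (1 - max 0 (s' - T))| ≤ |s - s'| := by
  refine (abs_max_sub_max_le_max _ _ _ _).trans ?_
  rw [sub_self, abs_zero]
  refine max_le (abs_nonneg _) ?_
  have : (1 - max 0 (s - T)) - (1 - max 0 (s' - T)) = max 0 (s' - T) - max 0 (s - T) := by ring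
  rw [this]
  refine (abs_max_sub_max_le_max _ _ _ _).trans ?_
  rw [sub_self, abs_zero]
  refine max_le (abs_nonneg _) (le_of_eq ?_)
  rw [abs_sub_comm]; congr 1; ring

theorem cut_mem (s : ℝ) : 0 ≤ max 0 (1 - max 0 (s - T)) ∧ max 0 (1 - max 0 (s - T)) ≤ 1 := by
  refine ⟨le_max_left _ _, max_le zero_le_one ?_⟩
  linarith [le_max_left 0 (s - T)]

variable (hM : 0 ≤ M) (hT : 0 < T) (hw : ∀ s ∈ Icc 0 T, ∀ s' ∈ Icc 0 T, |w s - w s'| ≤ M * |s - s'|)
  (hw0 : w 0 = 0)

include hM hT hw hw0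

theorem w_abs (s : ℝ) (hs : s ∈ Icc 0 T) : |w s| ≤ M * T := by
  have := hw s hs 0 ⟨le_rfl, hT.le⟩
  rw [hw0, sub_zero, sub_zero, abs_of_nonneg hs.1] at this
  exact this.trans (by gcongr; exact hs.2)

theorem ext_abs (s : ℝ) : |ext w T s| ≤ M * T := by
  unfold ext
  rw [abs_mul, abs_of_nonneg (cut_mem s).1]
  calc |w (max 0 (min s T))| * max 0 (1 - max 0 (s - T)) ≤ (M * T) * 1 :=
        mul_le_mul (w_abs hM hT hw hw0 _ (proj_mem hT s)) (cut_mem s).2 (cut_mem s).1 (by positivity)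
    _ = M * T := mul_one _

theorem ext_lip (s s' : ℝ) : |ext w T s - ext w T s'| ≤ (M + M * T) * |s - s'| := by
  unfold ext
  set p := w (max 0 (min s T)) with hp
  set p' := w (max 0 (min s' T)) with hp'
  set q := max 0 (1 - max 0 (s - T)) with hq
  set q' := max 0 (1 - max 0 (s' - T)) with hq'
  have e : p * q - p' * q' = (p - p') * q + p' * (q - q') := by ring
  rw [e]
  refine (abs_add_le _ _).trans ?_
  rw [abs_mul, abs_mul]
  have h1 : |p - p'| ≤ M * |s - s'| := by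
    exact (hw _ (proj_mem hT s) _ (proj_mem hT s')).trans
      (mul_le_mul_of_nonneg_left (proj_lip s s') hM)
  have h2 : |q| ≤ 1 := by rw [abs_of_nonneg (cut_mem s).1]; exact (cut_mem s).2
  have h3 : |p'| ≤ M * T := w_abs hM hT hw hw0 _ (proj_mem hT s')
  have h4 : |q - q'| ≤ |s - s'| := cut_lip s s'
  calc |p - p'| * |q| + |p'| * |q - q'| ≤ (M * |s - s'|) * 1 + (M * T) * |s - s'| := by
        gcongr
    _ = _ := by ring

theorem ext_cont : Continuous (ext w T) := by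
  have : LipschitzWith ⟨M + M * T, by positivity⟩ (ext w T) := by
    refine LipschitzWith.of_dist_le_mul fun s s' => ?_
    rw [Real.dist_eq, Real.dist_eq]
    exact ext_lip hM hT hw hw0 s s'
  exact this.continuous

omit hM hT hw in
theorem ext_left (hT : 0 < T) (s : ℝ) (hs : s ≤ 0) : ext w T s = 0 := by
  unfold ext
  rw [min_eq_left (hs.trans hT.le), max_eq_left hs, hw0, zero_mul]

omit hM hT hw hw0 in
theorem ext_right (s : ℝ) (hs : T + 1 ≤ s) : ext w T s = 0 := by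
  unfold ext
  rw [max_eq_right (by linarith : (0:ℝ) ≤ s - T), max_eq_left (by linarith : 1 - (s - T) ≤ 0),
    mul_zero]

omit hM hT hw hw0 in
theorem ext_eq (s : ℝ) (hs : s ∈ Icc 0 T) : ext w T s = w s := by
  unfold ext
  rw [min_eq_left hs.2, max_eq_right hs.1, max_eq_left (by linarith [hs.2] : s - T ≤ 0), sub_zero,
    max_eq_right zero_le_one, mul_one]

end

end Pool.Agent.V7H94.Trk
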