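import Mathlib

set_option autoImplicit false

/-!
# The heat semigroup on the line, for smooth bounded data
-/

open Set Filter Topology MeasureTheory

namespace Pool.Agent.V7H94.Trk

/-- the standard Gaussian density -/
noncomputable def ph (u : ℝ) : ℝ := (√(2 * Real.pi))⁻¹ * Real.exp (-(1 / 2) * u ^ 2)

theorem ph_pos (u : ℝ) : 0 < ph u := by
  unfold ph
  have := Real.pi_pos
  positivity

theorem ph_int : Integrable ph := (integrable_exp_neg_mul_sq (by norm_num)).const_mul _

theorem ph_cont : Continuous ph := by unfold ph; fun_prop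

theorem ph_one : ∫ u, ph u = 1 := by
  unfold ph
  rw [integral_const_mul, integral_gaussian]
  have : Real.pi / (1 / 2) = 2 * Real.pi := by ring
  rw [this]
  have h : 0 < √(2 * Real.pi) := Real.sqrt_pos.2 (by positivity)
  field_simp

theorem ph_neg (u : ℝ) : ph (-u) = ph u := by unfold ph; rw [neg_sq]

theorem ph_mul_int : Integrable (fun u => u * ph u) := by
  have h := (integrable_mul_exp_neg_mul_sq (b := 1 / 2) (by norm_num)).const_mul
    ((√(2 * Real.pi))⁻¹)
  refine h.congr (Eventually.of_forall fun u => ?_)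
  unfold ph
  ring

theorem ph_abs_int : Integrable (fun u => |u| * ph u) := by
  refine ph_mul_int.abs.congr (Eventually.of_forall fun u => ?_)
  simp only [abs_mul, abs_of_pos (ph_pos u)]

theorem ph_deriv (u : ℝ) : HasDerivAt (fun v => - ph v) (u * ph u) u := by
  have h1 : HasDerivAt (fun v : ℝ => -(1 / 2) * v ^ 2) (-(1 / 2) * (2 * u)) u := by
    have := (hasDerivAt_pow 2 u).const_mul (-(1 / 2) : ℝ)
    simpa using this
  have h2 := (h1.exp.const_mul ((√(2 * Real.pi))⁻¹)).neg
  refine h2.congr_deriv ?_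
  unfold ph
  ring

/-- the heat semigroup -/
noncomputable def Z (f : ℝ → ℝ) (t x : ℝ) : ℝ := ∫ u, f (x + √(2 * t) * u) * ph u

theorem Z_int {f : ℝ → ℝ} (hf : Continuous f) {A : ℝ} (hA : ∀ x, |f x| ≤ A) (s x : ℝ) :
    Integrable (fun u => f (x + s * u) * ph u) := by
  refine ph_int.bdd_mul (c := A) (Continuous.aestronglyMeasurable (by fun_prop)) ?_
  exact Eventually.of_forall fun u => by rw [Real.norm_eq_abs]; exact hA _

theorem Z_abs {f : ℝ → ℝ} {A : ℝ} (hA : ∀ x, |f x| ≤ A) (t x : ℝ) : |Z f t x| ≤ A := by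
  unfold Z
  have h := norm_integral_le_of_norm_le (ph_int.const_mul A)
    (f := fun u => f (x + √(2 * t) * u) * ph u) (Eventually.of_forall fun u => by
      rw [norm_mul, Real.norm_eq_abs, Real.norm_of_nonneg (ph_pos u).le]
      exact mul_le_mul_of_nonneg_right (hA _) (ph_pos u).le)
  rw [integral_const_mul, ph_one, mul_one, Real.norm_eq_abs] at h
  exact h

theorem Z_zero (f : ℝ → ℝ) (x : ℝ) : Z f 0 x = f x := by
  unfold Z
  simp [integral_const_mul, ph_one]

theorem Z_odd {f : ℝ → ℝ} (hf : ∀ x, f (-x) = - f x) (t : ℝ) : Z f t 0 = 0 := by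
  have h1 : Z f t 0 = - Z f t 0 := by
    conv_lhs => unfold Z; rw [← integral_neg_eq_self]
    unfold Z
    rw [← integral_neg]
    congr 1
    funext u
    rw [ph_neg]
    have : (0 : ℝ) + √(2 * t) * -u = -(0 + √(2 * t) * u) := by ring
    rw [this, hf]
    ring
  linarith

theorem Z_cont {f : ℝ → ℝ} (hf : Continuous f) {A : ℝ} (hA : ∀ x, |f x| ≤ A) :
    Continuous (fun p : ℝ × ℝ => Z f p.1 p.2) := by
  unfold Z
  refine continuous_of_dominated (bound := fun u => A * ph u) ?_ ?_ (ph_int.const_mul A) ?_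
  · intro p
    exact Continuous.aestronglyMeasurable (by have := ph_cont; fun_prop)
  · intro p
    refine Eventually.of_forall fun u => ?_
    rw [norm_mul, Real.norm_eq_abs, Real.norm_of_nonneg (ph_pos u).le]
    exact mul_le_mul_of_nonneg_right (hA _) (ph_pos u).le
  · refine Eventually.of_forall fun u => ?_
    fun_prop

theorem Z_dx {f f' : ℝ → ℝ} (hf : ∀ x, HasDerivAt f (f' x) x) (hf' : Continuous f') {A A' : ℝ}
    (hA : ∀ x, |f x| ≤ A) (hA' : ∀ x, |f' x| ≤ A') (t x : ℝ) :
    HasDerivAt (fun x => Z f t x) (Z f' t x) x := by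
  have hc : Continuous f := continuous_iff_continuousAt.2 fun x => (hf x).continuousAt
  have hpc := ph_cont
  unfold Z
  refine (hasDerivAt_integral_of_dominated_loc_of_deriv_le (s := univ) (μ := volume)
    (F := fun x u => f (x + √(2 * t) * u) * ph u) (F' := fun x u => f' (x + √(2 * t) * u) * ph u)
    (bound := fun u => A' * ph u) univ_mem ?_ (Z_int hc hA _ x) ?_ ?_ (ph_int.const_mul A') ?_).2
  · exact Eventually.of_forall fun x => Continuous.aestronglyMeasurable (by fun_prop)
  · exact Continuous.aestronglyMeasurable (by fun_prop)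
  · refine Eventually.of_forall fun u x _ => ?_
    rw [norm_mul, Real.norm_eq_abs, Real.norm_of_nonneg (ph_pos u).le]
    exact mul_le_mul_of_nonneg_right (hA' _) (ph_pos u).le
  · refine Eventually.of_forall fun u x _ => ?_
    have h1 : HasDerivAt (fun x : ℝ => x + √(2 * t) * u) 1 x := (hasDerivAt_id x).add_const _
    have h2 := (hf (x + √(2 * t) * u)).comp x h1
    rw [mul_one] at h2
    exact h2.mul_const _

/-- Gaussian integration by parts -/
theorem stein {f f' : ℝ → ℝ} (hf : ∀ x, HasDerivAt f (f' x) x) (hf' : Continuous f') {A A' : ℝ}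
    (hA : ∀ x, |f x| ≤ A) (hA' : ∀ x, |f' x| ≤ A') (s x : ℝ) :
    ∫ u, f (x + s * u) * (u * ph u) = s * ∫ u, f' (x + s * u) * ph u := by
  have hc : Continuous f := continuous_iff_continuousAt.2 fun x => (hf x).continuousAt
  have hpc := ph_cont
  have h1 : ∀ u, HasDerivAt (fun u => f (x + s * u)) (s * f' (x + s * u)) u := by
    intro u
    have h2 : HasDerivAt (fun u : ℝ => x + s * u) s u := by
      simpa using ((hasDerivAt_id u).const_mul s).const_add x
    have h3 := (hf (x + s * u)).comp u h2
    rw [mul_comm] at h3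
    exact h3
  have hi1 : Integrable (fun u => f (x + s * u) * (u * ph u)) := by
    refine ph_mul_int.bdd_mul (c := A) (Continuous.aestronglyMeasurable (by fun_prop)) ?_
    exact Eventually.of_forall fun u => by rw [Real.norm_eq_abs]; exact hA _
  have hi2 : Integrable (fun u => f' (x + s * u) * ph u) := Z_int hf' hA' s x
  have hi3 : Integrable (fun u => f (x + s * u) * ph u) := Z_int hc hA s x
  have := integral_mul_deriv_eq_deriv_mul_of_integrable (u := fun u => f (x + s * u))
    (v := fun u => - ph u) (u' := fun u => s * f' (x + s * u)) (v' := fun u => u * ph u)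
    (fun u _ => h1 u) (fun u _ => ph_deriv u) hi1 ?_ ?_
  · rw [this, ← integral_neg, ← integral_const_mul]
    congr 1; funext u; ring
  · have := (hi2.const_mul s).neg
    refine this.congr (Eventually.of_forall fun u => ?_)
    simp only [Pi.neg_apply, Pi.mul_apply]
    ring
  · have := hi3.neg
    refine this.congr (Eventually.of_forall fun u => ?_)
    simp only [Pi.neg_apply, Pi.mul_apply]
    ring

theorem Z_dt {f f' f'' : ℝ → ℝ} (hf : ∀ x, HasDerivAt f (f' x) x)
    (hf1 : ∀ x, HasDerivAt f' (f'' x) x) (hf2 : Continuous f'') {A A' A'' : ℝ}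
    (hA : ∀ x, |f x| ≤ A) (hA' : ∀ x, |f' x| ≤ A') (hA'' : ∀ x, |f'' x| ≤ A'') {t : ℝ} (ht : 0 < t)
    (x : ℝ) : HasDerivAt (fun t => Z f t x) (Z f'' t x) t := by
  have hc : Continuous f := continuous_iff_continuousAt.2 fun x => (hf x).continuousAt
  have hc1 : Continuous f' := continuous_iff_continuousAt.2 fun x => (hf1 x).continuousAt
  have hpc := ph_cont
  have hA0 : 0 ≤ A' := (abs_nonneg _).trans (hA' 0)
  have hst : 0 < √(2 * t) := Real.sqrt_pos.2 (by linarith)
  have key : Z f'' t x = ∫ u, f' (x + √(2 * t) * u) * (1 / √(2 * t) * u) * ph u := by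
    have h1 := stein hf1 hf2 hA' hA'' (√(2 * t)) x
    have h2 : (fun u => f' (x + √(2 * t) * u) * (1 / √(2 * t) * u) * ph u) =
        fun u => 1 / √(2 * t) * (f' (x + √(2 * t) * u) * (u * ph u)) := by
      funext u; ring
    rw [h2, integral_const_mul, h1]
    unfold Z
    field_simp
  rw [key]
  refine (hasDerivAt_integral_of_dominated_loc_of_deriv_le (s := Ioi (t / 2)) (μ := volume)
    (F := fun t u => f (x + √(2 * t) * u) * ph u)
    (F' := fun t u => f' (x + √(2 * t) * u) * (1 / √(2 * t) * u) * ph u)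
    (bound := fun u => A' * (1 / √t) * (|u| * ph u)) (Ioi_mem_nhds (by linarith)) ?_
    (Z_int hc hA _ x) ?_ ?_ (ph_abs_int.const_mul _) ?_).2
  · exact Eventually.of_forall fun x => Continuous.aestronglyMeasurable (by fun_prop)
  · exact Continuous.aestronglyMeasurable (by fun_prop)
  · refine Eventually.of_forall fun u s hs => ?_
    have hs' : t / 2 < s := hs
    rw [norm_mul, norm_mul, Real.norm_eq_abs, Real.norm_of_nonneg (ph_pos u).le, norm_mul,
      Real.norm_of_nonneg (by positivity : 0 ≤ 1 / √(2 * s)), Real.norm_eq_abs]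
    have h1 : 1 / √(2 * s) ≤ 1 / √t := by
      apply one_div_le_one_div_of_le (Real.sqrt_pos.2 ht)
      exact Real.sqrt_le_sqrt (by linarith)
    calc |f' (x + √(2 * s) * u)| * (1 / √(2 * s) * |u|) * ph u
        ≤ A' * (1 / √t * |u|) * ph u := by
          have := (ph_pos u).le
          gcongr
          exact hA' _
      _ = _ := by ring
  · refine Eventually.of_forall fun u s hs => ?_
    have hs' : t / 2 < s := hs
    have hs0 : 0 < 2 * s := by linarith
    have h0 : HasDerivAt (fun s : ℝ => 2 * s) 2 s := by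
      simpa using (hasDerivAt_id s).const_mul (2 : ℝ)
    have h1 : HasDerivAt (fun s : ℝ => √(2 * s)) (1 / √(2 * s)) s := by
      refine (h0.sqrt hs0.ne').congr_deriv ?_
      have : 0 < √(2 * s) := Real.sqrt_pos.2 hs0
      field_simp
    have h2 : HasDerivAt (fun s : ℝ => x + √(2 * s) * u) (1 / √(2 * s) * u) s :=
      (h1.mul_const u).const_add x
    exact ((hf (x + √(2 * s) * u)).comp s h2).mul_const _

end Pool.Agent.V7H94.Trk
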