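import Pool.Agent.R190.Trk.Defs
import Pool.Agent.V7H94.Trk.Gauss
import Pool.Agent.V7H94.Trk.Semi

set_option autoImplicit false

/-!
# Cost of boundary tracking: the upper bound `C exp (C / ε)`
-/

open Set Filter Topology MeasureTheory
open Pool.Agent.R190.Trk

namespace Pool.Agent.V7H94.Trk

section cut
variable (χ : ContDiffBump (0 : ℝ)) (c : ℕ → ℝ)

/-- cut-off initial state -/
noncomputable def h0 (x : ℝ) : ℝ := χ x * P c x
/-- its first derivative -/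
noncomputable def h1 (x : ℝ) : ℝ := deriv χ x * P c x + χ x * Q c x
/-- its second derivative -/
noncomputable def h2 (x : ℝ) : ℝ :=
  (deriv (deriv χ) x * P c x + deriv χ x * Q c x) + (deriv χ x * Q c x + χ x * P (sh c) x)

variable {B ρ : ℝ} (hB : 0 ≤ B) (hρ : 0 < ρ) (hc : Gr B ρ c)

theorem chi_deriv (x : ℝ) : HasDerivAt χ (deriv χ x) x :=
  ((χ.contDiff (n := 1)).differentiable (by norm_num) x).hasDerivAt

theorem chi_cd : ContDiff ℝ 1 (deriv χ) := by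
  have h : ContDiff ℝ (1 + 1) χ := by
    rw [one_add_one_eq_two]
    exact χ.contDiff
  exact (contDiff_succ_iff_deriv.1 h).2.2

theorem chi_deriv2 (x : ℝ) : HasDerivAt (deriv χ) (deriv (deriv χ) x) x :=
  ((chi_cd χ).differentiable (by norm_num) x).hasDerivAt

theorem chi_cont2 : Continuous (deriv (deriv χ)) := (chi_cd χ).continuous_deriv le_rfl

theorem chi_out {x : ℝ} (hx : χ.rOut < |x|) :
    χ x = 0 ∧ deriv χ x = 0 ∧ deriv (deriv χ) x = 0 := by
  have h : (χ : ℝ → ℝ) =ᶠ[𝓝 x] fun _ => 0 := by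
    have : {y : ℝ | χ.rOut < |y|} ∈ 𝓝 x := (isOpen_lt continuous_const continuous_abs).mem_nhds hx
    filter_upwards [this] with y hy
    apply χ.zero_of_le_dist
    rw [Real.dist_eq, sub_zero]
    exact (show χ.rOut < |y| from hy).le
  have h1 : deriv χ =ᶠ[𝓝 x] fun _ => 0 := by
    have := h.deriv
    simpa using this
  have h2 : deriv (deriv χ) =ᶠ[𝓝 x] fun _ => 0 := by
    have := h1.deriv
    simpa using this
  exact ⟨h.eq_of_nhds, h1.eq_of_nhds, h2.eq_of_nhds⟩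

include hB hρ hc

theorem h0_deriv (x : ℝ) : HasDerivAt (h0 χ c) (h1 χ c x) x :=
  (chi_deriv χ x).mul (P_deriv hB hρ hc x)

theorem h1_deriv (x : ℝ) : HasDerivAt (h1 χ c) (h2 χ c x) x :=
  ((chi_deriv2 χ x).mul (P_deriv hB hρ hc x)).add ((chi_deriv χ x).mul (Q_deriv hB hρ hc x))

theorem P_cont1 : Continuous (P c) :=
  continuous_iff_continuousAt.2 fun x => (P_deriv hB hρ hc x).continuousAt

theorem Q_cont1 : Continuous (Q c) :=
  continuous_iff_continuousAt.2 fun x => (Q_deriv hB hρ hc x).continuousAt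

theorem h2_cont : Continuous (h2 χ c) := by
  have e1 := P_cont1 c hB hρ hc
  have e2 := Q_cont1 c hB hρ hc
  have e3 := P_cont1 (sh c) (by positivity : 0 ≤ B / ρ) (by positivity : 0 < ρ / 2) (Gr_sh hB hρ hc)
  have e4 := chi_cont2 χ
  have e5 : Continuous (deriv χ) := (chi_cd χ).continuous
  have e6 : Continuous χ := χ.continuous
  unfold h2
  fun_prop

theorem h2_bdd : ∃ A, ∀ x, |h2 χ c x| ≤ A := by
  obtain ⟨A, hA⟩ := (isCompact_Icc (a := -χ.rOut) (b := χ.rOut)).exists_bound_of_continuousOn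
    (h2_cont χ c hB hρ hc).continuousOn
  refine ⟨max A 0, fun x => ?_⟩
  by_cases hx : |x| ≤ χ.rOut
  · exact (hA x (abs_le.1 hx)).trans (le_max_left _ _)
  · obtain ⟨a1, a2, a3⟩ := chi_out χ (not_le.1 hx)
    unfold h2
    rw [a1, a2, a3]
    simp

theorem h0_bdd (x : ℝ) : |h0 χ c x| ≤ B * χ.rOut * Real.exp (χ.rOut ^ 2 / ρ) := by
  have hr := χ.rOut_pos
  by_cases hx : |x| ≤ χ.rOut
  · unfold h0
    rw [abs_mul, abs_of_nonneg χ.nonneg]
    calc χ x * |P c x| ≤ 1 * (B * χ.rOut * Real.exp (χ.rOut ^ 2 / ρ)) :=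
          mul_le_mul χ.le_one (P_bound hB hρ hc hx) (abs_nonneg _) zero_le_one
      _ = _ := one_mul _
  · obtain ⟨a1, a2, a3⟩ := chi_out χ (not_le.1 hx)
    unfold h0
    rw [a1]
    simp only [zero_mul, abs_zero]
    positivity

theorem h1_bdd {D : ℝ} (hD : ∀ x, |deriv χ x| ≤ D) (x : ℝ) :
    |h1 χ c x| ≤ (D * χ.rOut + 1) * (B * Real.exp (χ.rOut ^ 2 / ρ)) := by
  have hr := χ.rOut_pos
  have hD0 : 0 ≤ D := (abs_nonneg _).trans (hD 0)
  by_cases hx : |x| ≤ χ.rOut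
  · unfold h1
    refine (abs_add_le _ _).trans ?_
    rw [abs_mul, abs_mul, abs_of_nonneg χ.nonneg]
    calc |deriv χ x| * |P c x| + χ x * |Q c x|
        ≤ D * (B * χ.rOut * Real.exp (χ.rOut ^ 2 / ρ)) + 1 * (B * Real.exp (χ.rOut ^ 2 / ρ)) :=
          add_le_add (mul_le_mul (hD x) (P_bound hB hρ hc hx) (abs_nonneg _) hD0)
            (mul_le_mul χ.le_one (Q_bound hB hρ hc hx) (abs_nonneg _) zero_le_one)
      _ = _ := by ring
  · obtain ⟨a1, a2, a3⟩ := chi_out χ (not_le.1 hx)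
    unfold h1
    rw [a1, a2]
    simp only [zero_mul, add_zero, abs_zero]
    positivity

end cut

/-- the key construction -/
theorem construct {L T : ℝ} (hL : 0 < L) (_hT : 0 < T) (χ : ContDiffBump (0 : ℝ))
    (hin : χ.rIn = L) (hout : χ.rOut = 2 * L) {D : ℝ} (hD : ∀ x, |deriv χ x| ≤ D)
    {f : ℝ → ℝ} (hf : Continuous f) {A K : ℝ} (hK : 0 ≤ K) (hA : ∀ s, |f s| ≤ A)
    (hfL : ∀ s s', |f s - f s'| ≤ K * |s - s'|)
    {S : ℝ} (hS : 0 ≤ S) (hz0 : ∀ s, s ≤ 0 → f s = 0) (hz1 : ∀ s, S ≤ s → f s = 0)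
    {a σ : ℝ} (ha : 0 < a) (hσ : 0 < σ) {w : ℝ → ℝ} (hw : ∀ t ∈ Icc 0 T, w t = f t) {ε : ℝ}
    (hε : K * (σ + √2 / √a) + (D * (2 * L) + 1) *
      (A * S * √(a / Real.pi) * Real.exp (-(a * σ ^ 2 / 2)) * Real.exp ((2 * L) ^ 2 / (σ / 8))) ≤ ε) :
    ∃ v : ℝ → ℝ, Achieves L T w ε v ∧ ∀ t, |v t| ≤
      A * S * √(a / Real.pi) * Real.exp (a * σ ^ 2 / 32) * L * Real.exp (L ^ 2 / (σ / 8)) +
      A * S * √(a / Real.pi) * Real.exp (-(a * σ ^ 2 / 2)) * (2 * L) *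
        Real.exp ((2 * L) ^ 2 / (σ / 8)) := by
  have hA0 : 0 ≤ A := (abs_nonneg _).trans (hA 0)
  set B := A * S * √(a / Real.pi) * Real.exp (a * σ ^ 2 / 32) with hBdef
  set B0 := A * S * √(a / Real.pi) * Real.exp (-(a * σ ^ 2 / 2)) with hB0def
  have hB : 0 ≤ B := by positivity
  have hB0 : 0 ≤ B0 := by positivity
  have hρ : 0 < σ / 8 := by positivity
  have hWd : ∀ i t, HasDerivAt (W a σ S f i) (W a σ S f (i + 1) t) t := fun i t =>
    W_deriv ha σ S hf hA i t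
  have hWc : ∀ i, Continuous (W a σ S f i) := fun i =>
    continuous_iff_continuousAt.2 fun t => (hWd i t).continuousAt
  have hG : ∀ t, Gr B (σ / 8) (fun i => W a σ S f i t) := fun t => W_gr ha hσ hS hA t
  have hG0 : Gr B0 (σ / 8) (fun i => W a σ S f i 0) := W_gr_zero ha hσ hS hA
  set c : ℕ → ℝ := fun i => W a σ S f i 0 with hc
  have d0 := h0_deriv χ c hB0 hρ hG0
  have d1 := h1_deriv χ c hB0 hρ hG0
  have c2 := h2_cont χ c hB0 hρ hG0
  obtain ⟨A2, hA2⟩ := h2_bdd χ c hB0 hρ hG0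
  have b0 := h0_bdd χ c hB0 hρ hG0
  have b1 := h1_bdd χ c hB0 hρ hG0 hD
  rw [hout] at b0 b1
  have c0 : Continuous (h0 χ c) := continuous_iff_continuousAt.2 fun x => (d0 x).continuousAt
  have c1 : Continuous (h1 χ c) := continuous_iff_continuousAt.2 fun x => (d1 x).continuousAt
  set y : ℝ → ℝ → ℝ := fun t x => P (fun i => W a σ S f i t) x - Z (h0 χ c) t x with hy
  have hyc : Continuous (fun p : ℝ × ℝ => y p.1 p.2) :=
    (P_cont hB hρ hWc hG).sub (Z_cont c0 b0)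
  have hyb : ∀ t x, |x| ≤ L → |y t x| ≤ B * L * Real.exp (L ^ 2 / (σ / 8)) +
      B0 * (2 * L) * Real.exp ((2 * L) ^ 2 / (σ / 8)) := by
    intro t x hx
    refine (abs_sub _ _).trans ?_
    exact add_le_add (P_bound hB hρ (hG t) hx) (Z_abs b0 t x)
  have hodd : ∀ x, h0 χ c (-x) = - h0 χ c x := by
    intro x
    unfold h0
    rw [χ.neg, P_neg]
    ring
  have hdx : ∀ t x, HasDerivAt (y t) (Q (fun i => W a σ S f i t) x - Z (h1 χ c) t x) x := by
    intro t x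
    exact (P_deriv hB hρ (hG t) x).sub (Z_dx d0 c1 b0 b1 t x)
  refine ⟨fun t => y t L, ⟨?_, y, fun t => W a σ S f 0 t - Z (h1 χ c) t 0, ?_, ?_, ?_, ?_⟩, ?_⟩
  · exact (hyc.comp (Continuous.prodMk continuous_id continuous_const)).continuousOn
  · refine ⟨⟨_, fun t _ x hx => hyb t x ?_⟩, hyc.continuousOn, ?_, ?_, ?_, ?_⟩
    · rw [abs_of_nonneg hx.1]; exact hx.2
    · intro t ht x _
      refine ⟨P (sh fun i => W a σ S f i t) x - Z (h2 χ c) t x,
        fun z => Q (fun i => W a σ S f i t) z - Z (h1 χ c) t z, ?_, ?_, ?_⟩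
      · exact (P_time hB hρ hWd hG t x).sub (Z_dt d0 d1 c2 b0 b1 hA2 ht.1 x)
      · exact Eventually.of_forall fun z => hdx t z
      · exact (Q_deriv hB hρ (hG t) x).sub (Z_dx d1 c2 b1 hA2 t x)
    · intro x hx
      simp only [hy]
      rw [Z_zero]
      unfold h0
      rw [χ.one_of_mem_closedBall, one_mul, sub_self]
      rw [mem_closedBall_zero_iff, Real.norm_eq_abs, abs_of_nonneg hx.1, hin]
      exact hx.2.le
    · intro t _
      simp only [hy]
      rw [P_zero, Z_odd hodd, sub_zero]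
    · intro t _
      rfl
  · refine Continuous.continuousOn ?_
    exact (hWc 0).sub ((Z_cont c1 b1).comp (Continuous.prodMk continuous_id continuous_const))
  · intro t _
    have := hdx t 0
    rw [Q_zero] at this
    exact this.hasDerivWithinAt
  · intro t ht
    have e : W a σ S f 0 t - Z (h1 χ c) t 0 - w t = (W a σ S f 0 t - f t) - Z (h1 χ c) t 0 := by
      rw [hw t ht]; ring
    simp only
    rw [e]
    refine (abs_sub _ _).trans (le_trans ?_ hε)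
    exact add_le_add (approx ha hσ.le hS hf hK hfL hz0 hz1 hA t) (Z_abs b1 t 0)
  · intro t
    exact hyb t L (by rw [abs_of_pos hL])

theorem exp_small {σ : ℝ} (hσ : 0 < σ) : Real.exp (-(1 / σ)) ≤ 6 * σ ^ 3 := by
  have h := Real.pow_div_factorial_le_exp (1 / σ) (by positivity) 3
  have h3 : ((Nat.factorial 3 : ℕ) : ℝ) = 6 := by norm_num [Nat.factorial]
  rw [h3] at h
  rw [Real.exp_neg, inv_le_comm₀ (Real.exp_pos _) (by positivity)]
  refine le_trans (le_of_eq ?_) h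
  field_simp

theorem exp_large {σ : ℝ} (hσ : 0 < σ) : 1 / σ ^ 2 ≤ 2 * Real.exp (1 / σ) := by
  have h := Real.pow_div_factorial_le_exp (1 / σ) (by positivity) 2
  have h3 : ((Nat.factorial 2 : ℕ) : ℝ) = 2 := by norm_num [Nat.factorial]
  rw [h3] at h
  have : 1 / σ ^ 2 = 2 * ((1 / σ) ^ 2 / 2) := by field_simp
  rw [this]
  gcongr

theorem main_small {L T M : ℝ} (hL : 0 < L) (hT : 0 < T) (hM : 0 ≤ M) :
    ∃ C : ℝ, 0 < C ∧ ∀ w : ℝ → ℝ, (∀ s ∈ Icc 0 T, ∀ s' ∈ Icc 0 T, |w s - w s'| ≤ M * |s - s'|) →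
      w 0 = 0 → ∀ ε : ℝ, 0 < ε → ε ≤ 1 →
        ∃ v : ℝ → ℝ, Achieves L T w ε v ∧ ∀ t, |v t| ≤ C * Real.exp (C / ε) := by
  -- the cut-off
  let χ : ContDiffBump (0 : ℝ) := ⟨L, 2 * L, hL, by linarith⟩
  obtain ⟨D, hD⟩ : ∃ D, ∀ x, |deriv χ x| ≤ D := by
    obtain ⟨A, hA⟩ := (isCompact_Icc (a := -χ.rOut) (b := χ.rOut)).exists_bound_of_continuousOn
      (chi_cd χ).continuous.continuousOn
    refine ⟨max A 0, fun x => ?_⟩
    by_cases hx : |x| ≤ χ.rOut
    · exact (hA x (abs_le.1 hx)).trans (le_max_left _ _)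
    · rw [(chi_out χ (not_le.1 hx)).2.1, abs_zero]
      exact le_max_right _ _
  have hD0 : 0 ≤ D := (abs_nonneg _).trans (hD 0)
  obtain ⟨A, hAdef⟩ : ∃ A : ℝ, A = 64 * L ^ 2 + 2 := ⟨_, rfl⟩
  have hA2 : 2 ≤ A := by rw [hAdef]; nlinarith [sq_nonneg L]
  obtain ⟨S, hSdef⟩ : ∃ S : ℝ, S = T + 1 := ⟨_, rfl⟩
  have hS : 0 ≤ S := by linarith
  obtain ⟨F, hFdef⟩ : ∃ F : ℝ, F = M * T := ⟨_, rfl⟩
  have hF : 0 ≤ F := by rw [hFdef]; positivity
  obtain ⟨K, hKdef⟩ : ∃ K : ℝ, K = M + M * T := ⟨_, rfl⟩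
  have hK : 0 ≤ K := by rw [hKdef]; positivity
  obtain ⟨E, hEdef⟩ : ∃ E : ℝ, E = K * 3 + (D * (2 * L) + 1) * (F * S * (6 * (A + 1))) + 1 := ⟨_, rfl⟩
  have hE1 : 1 ≤ E := by
    rw [hEdef]
    have : 0 ≤ K * 3 + (D * (2 * L) + 1) * (F * S * (6 * (A + 1))) := by positivity
    linarith
  obtain ⟨C, hCdef⟩ : ∃ C : ℝ, C = 14 * (F * S * L * (A + 1)) + (A / 32 + 8 * L ^ 2 + 1) * E :=
    ⟨_, rfl⟩
  have hC1 : (A / 32 + 8 * L ^ 2 + 1) * E ≤ C := by
    rw [hCdef]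
    have : 0 ≤ 14 * (F * S * L * (A + 1)) := by positivity
    linarith
  have hC2 : 14 * (F * S * L * (A + 1)) ≤ C := by
    rw [hCdef]
    have : 0 ≤ (A / 32 + 8 * L ^ 2 + 1) * E := by positivity
    linarith
  have hC0 : 0 < C := lt_of_lt_of_le (by positivity) hC1
  refine ⟨C, hC0, ?_⟩
  intro w hw hw0 ε hε hε1
  obtain ⟨σ, hσdef⟩ : ∃ σ : ℝ, σ = ε / E := ⟨_, rfl⟩
  have hσ : 0 < σ := by rw [hσdef]; positivity
  have hσE : E * σ = ε := by rw [hσdef]; field_simp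
  have hσ1 : σ ≤ 1 := by
    rw [hσdef, div_le_one (by linarith)]; linarith
  obtain ⟨a, hadef⟩ : ∃ a : ℝ, a = A / σ ^ 3 := ⟨_, rfl⟩
  have ha : 0 < a := by rw [hadef]; positivity
  -- sizes
  have s1 : √2 / √a ≤ 2 * σ := by
    have h1 : 1 / σ ≤ √a := by
      apply Real.le_sqrt_of_sq_le
      rw [hadef, div_pow, one_pow, div_le_div_iff₀ (by positivity) (by positivity)]
      have : σ ^ 3 = σ * σ ^ 2 := by ring
      rw [this]
      have h2 : σ ≤ A := by linarith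
      nlinarith [sq_nonneg σ, mul_le_mul_of_nonneg_right h2 (sq_nonneg σ)]
    have h2 : √2 ≤ 2 := by
      rw [Real.sqrt_le_left (by norm_num)]; norm_num
    have h3 : 0 < 1 / σ := by positivity
    calc √2 / √a ≤ 2 / (1 / σ) := by gcongr
      _ = 2 * σ := by field_simp
  have s2 : √(a / Real.pi) ≤ (A + 1) / σ ^ 2 := by
    apply Real.sqrt_le_iff.2
    refine ⟨by positivity, ?_⟩
    have h1 : a / Real.pi ≤ a / 1 := by
      apply div_le_div_of_nonneg_left ha.le one_pos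
      linarith [Real.pi_gt_three]
    refine h1.trans ?_
    rw [hadef, div_one, div_pow, div_le_div_iff₀ (by positivity) (by positivity)]
    have h2 : σ ^ 4 ≤ σ ^ 3 := pow_le_pow_of_le_one hσ.le hσ1 (by norm_num)
    have h3 : A ≤ (A + 1) ^ 2 := by nlinarith
    have : (σ ^ 2) ^ 2 = σ ^ 4 := by ring
    rw [this]
    exact mul_le_mul h3 h2 (by positivity) (by positivity)
  have e1 : a * σ ^ 2 / 2 = A / (2 * σ) := by rw [hadef]; field_simp
  have e2 : a * σ ^ 2 / 32 = A / (32 * σ) := by rw [hadef]; field_simp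
  have s3 : Real.exp (-(a * σ ^ 2 / 2)) * Real.exp ((2 * L) ^ 2 / (σ / 8)) = Real.exp (-(1 / σ)) := by
    rw [← Real.exp_add, e1]
    congr 1
    rw [hAdef]
    field_simp
    ring
  have s4 : F * S * √(a / Real.pi) * Real.exp (-(a * σ ^ 2 / 2)) *
      Real.exp ((2 * L) ^ 2 / (σ / 8)) ≤ F * S * (6 * (A + 1)) * σ := by
    calc F * S * √(a / Real.pi) * Real.exp (-(a * σ ^ 2 / 2)) * Real.exp ((2 * L) ^ 2 / (σ / 8))
        = F * S * √(a / Real.pi) *
          (Real.exp (-(a * σ ^ 2 / 2)) * Real.exp ((2 * L) ^ 2 / (σ / 8))) := by ring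
      _ ≤ F * S * ((A + 1) / σ ^ 2) * (6 * σ ^ 3) := by
          rw [s3]
          have := exp_small hσ
          gcongr
      _ = F * S * (6 * (A + 1)) * σ := by field_simp
  obtain ⟨v, hv, hvb⟩ := construct hL hT χ rfl rfl hD (ext_cont hM hT hw hw0) hK
    (fun s => by rw [hFdef]; exact ext_abs hM hT hw hw0 s : ∀ s, |ext w T s| ≤ F)
    (fun s s' => by rw [hKdef]; exact ext_lip hM hT hw hw0 s s') hS
    (fun s hs => ext_left hw0 hT s hs) (fun s hs => ext_right s (by rw [hSdef] at hs; exact hs)) ha hσ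
    (fun t ht => (ext_eq (w := w) t ht).symm) (ε := ε) (by
      calc K * (σ + √2 / √a) + (D * (2 * L) + 1) *
            (F * S * √(a / Real.pi) * Real.exp (-(a * σ ^ 2 / 2)) *
              Real.exp ((2 * L) ^ 2 / (σ / 8)))
          ≤ K * (σ + 2 * σ) + (D * (2 * L) + 1) * (F * S * (6 * (A + 1)) * σ) := by
            gcongr
        _ = (E - 1) * σ := by rw [hEdef]; ring
        _ ≤ ε := by rw [← hσE]; nlinarith)
  refine ⟨v, hv, fun t => (hvb t).trans ?_⟩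
  have s5 : F * S * √(a / Real.pi) * Real.exp (a * σ ^ 2 / 32) * L * Real.exp (L ^ 2 / (σ / 8)) ≤
      2 * (F * S * L * (A + 1)) * Real.exp ((A / 32 + 8 * L ^ 2 + 1) / σ) := by
    calc F * S * √(a / Real.pi) * Real.exp (a * σ ^ 2 / 32) * L * Real.exp (L ^ 2 / (σ / 8))
        ≤ F * S * ((A + 1) / σ ^ 2) * Real.exp (a * σ ^ 2 / 32) * L * Real.exp (L ^ 2 / (σ / 8)) := by
          gcongr
      _ = F * S * L * (A + 1) * (1 / σ ^ 2) *
            (Real.exp (a * σ ^ 2 / 32) * Real.exp (L ^ 2 / (σ / 8))) := by ring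
      _ ≤ F * S * L * (A + 1) * (2 * Real.exp (1 / σ)) *
            (Real.exp (a * σ ^ 2 / 32) * Real.exp (L ^ 2 / (σ / 8))) := by
          have := exp_large hσ
          gcongr
      _ = 2 * (F * S * L * (A + 1)) *
            (Real.exp (1 / σ) * (Real.exp (a * σ ^ 2 / 32) * Real.exp (L ^ 2 / (σ / 8)))) := by ring
      _ = _ := by
          rw [← Real.exp_add, ← Real.exp_add, e2]
          congr 2
          field_simp
          ring
  have s6 : F * S * √(a / Real.pi) * Real.exp (-(a * σ ^ 2 / 2)) * (2 * L) *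
        Real.exp ((2 * L) ^ 2 / (σ / 8)) ≤
      12 * (F * S * L * (A + 1)) * Real.exp ((A / 32 + 8 * L ^ 2 + 1) / σ) := by
    calc F * S * √(a / Real.pi) * Real.exp (-(a * σ ^ 2 / 2)) * (2 * L) *
        Real.exp ((2 * L) ^ 2 / (σ / 8)) = (2 * L) * (F * S * √(a / Real.pi) *
          Real.exp (-(a * σ ^ 2 / 2)) * Real.exp ((2 * L) ^ 2 / (σ / 8))) := by ring
      _ ≤ (2 * L) * (F * S * (6 * (A + 1)) * 1) := by
          refine mul_le_mul_of_nonneg_left (s4.trans ?_) (by positivity)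
          gcongr
      _ = 12 * (F * S * L * (A + 1)) * 1 := by ring
      _ ≤ _ := by
          gcongr
          apply Real.one_le_exp
          positivity
  calc _ ≤ 2 * (F * S * L * (A + 1)) * Real.exp ((A / 32 + 8 * L ^ 2 + 1) / σ) +
        12 * (F * S * L * (A + 1)) * Real.exp ((A / 32 + 8 * L ^ 2 + 1) / σ) := add_le_add s5 s6
    _ = 14 * (F * S * L * (A + 1)) * Real.exp (((A / 32 + 8 * L ^ 2 + 1) * E) / ε) := by
        rw [← hσE]
        have : (A / 32 + 8 * L ^ 2 + 1) * E / (E * σ) = (A / 32 + 8 * L ^ 2 + 1) / σ := by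
          field_simp
        rw [this]
        ring
    _ ≤ C * Real.exp (C / ε) := by gcongr

theorem nrm_le {T : ℝ} (hT : 0 < T) {v : ℝ → ℝ} {B : ℝ} (h : ∀ t, |v t| ≤ B) : nrm T v ≤ B := by
  unfold nrm
  apply csSup_le ((nonempty_Icc.2 hT.le).image _)
  rintro _ ⟨t, _, rfl⟩
  exact h t

theorem Kw_le {L T ε B : ℝ} {w v : ℝ → ℝ} (hT : 0 < T) (hv : Achieves L T w ε v)
    (h : ∀ t, |v t| ≤ B) : Kw L T w ε ≤ ((B : ℝ) : EReal) := by
  have h1 : Kw L T w ε ≤ ((nrm T v : ℝ) : EReal) := by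
    unfold Kw
    exact sInf_le (show ((nrm T v : ℝ) : EReal) ∈ {r : EReal | ∃ v : ℝ → ℝ, Achieves L T w ε v ∧
      r = ((nrm T v : ℝ) : EReal)} from ⟨v, hv, rfl⟩)
  exact h1.trans (EReal.coe_le_coe_iff.2 (nrm_le hT h))

theorem main {L T M : ℝ} (hL : 0 < L) (hT : 0 < T) (hM : 0 ≤ M) :
    ∃ C : ℝ, 0 < C ∧ ∀ w : ℝ → ℝ, (∀ s ∈ Icc 0 T, ∀ s' ∈ Icc 0 T, |w s - w s'| ≤ M * |s - s'|) →
      w 0 = 0 → ∀ ε : ℝ, 0 < ε → Kw L T w ε ≤ ((C * Real.exp (C / ε) : ℝ) : EReal) := by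
  obtain ⟨C, hC, h⟩ := main_small hL hT hM
  refine ⟨C * Real.exp C, by positivity, ?_⟩
  intro w hw hw0 ε hε
  have hCC : C ≤ C * Real.exp C := by
    have := Real.one_le_exp hC.le
    nlinarith
  by_cases hε1 : ε ≤ 1
  · obtain ⟨v, hv, hb⟩ := h w hw hw0 ε hε hε1
    refine (Kw_le hT hv hb).trans ?_
    rw [EReal.coe_le_coe_iff]
    gcongr
  · push Not at hε1
    obtain ⟨v, hv, hb⟩ := h w hw hw0 1 one_pos le_rfl
    have hv' : Achieves L T w ε v := by
      obtain ⟨h1, y, q, h2, h3, h4, h5⟩ := hv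
      exact ⟨h1, y, q, h2, h3, h4, fun t ht => (h5 t ht).trans hε1.le⟩
    refine (Kw_le hT hv' hb).trans ?_
    rw [EReal.coe_le_coe_iff, div_one]
    have : 1 ≤ Real.exp (C * Real.exp C / ε) := Real.one_le_exp (by positivity)
    nlinarith [Real.exp_pos C]

end Pool.Agent.V7H94.Trk
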