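import Mathlib

set_option autoImplicit false

/-!
# The series `∑ c_i x^(2i+1)/(2i+1)!`
-/

open Set Filter Topology

namespace Pool.Agent.V7H94.Trk

/-- the odd series `∑ c_i x^(2i+1)/(2i+1)!` -/
noncomputable def P (c : ℕ → ℝ) (x : ℝ) : ℝ := ∑' i, c i * (x ^ (2 * i + 1) / (2 * i + 1).factorial)

/-- the even series `∑ c_i x^(2i)/(2i)!` -/
noncomputable def Q (c : ℕ → ℝ) (x : ℝ) : ℝ := ∑' i, c i * (x ^ (2 * i) / (2 * i).factorial)

/-- the shifted sequence -/
def sh (c : ℕ → ℝ) (i : ℕ) : ℝ := c (i + 1)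

/-- growth `|c_i| ≤ B i! / ρ^i` -/
def Gr (B ρ : ℝ) (c : ℕ → ℝ) : Prop := ∀ i, |c i| ≤ B * (i.factorial / ρ ^ i)

theorem Gr_sh {B ρ : ℝ} (hB : 0 ≤ B) (hρ : 0 < ρ) {c : ℕ → ℝ} (h : Gr B ρ c) :
    Gr (B / ρ) (ρ / 2) (sh c) := by
  intro i
  have h1 := h (i + 1)
  have h2 : ((i + 1).factorial : ℝ) ≤ 2 ^ i * i.factorial := by
    have : i + 1 ≤ 2 ^ i := Nat.lt_two_pow_self
    rw [Nat.factorial_succ]
    push_cast
    have h3 : ((i : ℝ) + 1) ≤ 2 ^ i := by exact_mod_cast this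
    gcongr
  calc |sh c i| ≤ B * ((i + 1).factorial / ρ ^ (i + 1)) := h1
    _ ≤ B * ((2 ^ i * i.factorial) / ρ ^ (i + 1)) := by gcongr
    _ = B / ρ * (i.factorial / (ρ / 2) ^ i) := by
        rw [div_pow, pow_succ]
        field_simp

theorem fac_sq (i : ℕ) : (i.factorial : ℝ) * i.factorial ≤ (2 * i).factorial := by
  have h := Nat.le_of_dvd (Nat.factorial_pos _) (Nat.factorial_mul_factorial_dvd_factorial_add i i)
  rw [two_mul]
  exact_mod_cast h

theorem fac_sq' (i : ℕ) : (i.factorial : ℝ) * i.factorial ≤ (2 * i + 1).factorial :=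
  (fac_sq i).trans (by exact_mod_cast Nat.factorial_le (Nat.le_succ _))

theorem term_even {B ρ : ℝ} (hB : 0 ≤ B) (hρ : 0 < ρ) {c : ℕ → ℝ} (h : Gr B ρ c) {x R : ℝ}
    (hx : |x| ≤ R) (i : ℕ) :
    |c i * (x ^ (2 * i) / (2 * i).factorial)| ≤ B * ((R ^ 2 / ρ) ^ i / i.factorial) := by
  have hR : 0 ≤ R := (abs_nonneg x).trans hx
  have h0 : (0 : ℝ) < i.factorial := by exact_mod_cast Nat.factorial_pos i
  have h1 : (0 : ℝ) < (2 * i).factorial := by exact_mod_cast Nat.factorial_pos _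
  rw [abs_mul, abs_div, abs_pow, abs_of_pos h1]
  calc |c i| * (|x| ^ (2 * i) / (2 * i).factorial)
      ≤ (B * (i.factorial / ρ ^ i)) * (R ^ (2 * i) / (i.factorial * i.factorial)) := by
        gcongr
        · exact h i
        · exact fac_sq i
    _ = B * ((R ^ 2 / ρ) ^ i / i.factorial) := by
        rw [div_pow, ← pow_mul]
        field_simp

theorem term_odd {B ρ : ℝ} (hB : 0 ≤ B) (hρ : 0 < ρ) {c : ℕ → ℝ} (h : Gr B ρ c) {x R : ℝ}
    (hx : |x| ≤ R) (i : ℕ) :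
    |c i * (x ^ (2 * i + 1) / (2 * i + 1).factorial)| ≤
      B * R * ((R ^ 2 / ρ) ^ i / i.factorial) := by
  have hR : 0 ≤ R := (abs_nonneg x).trans hx
  have h0 : (0 : ℝ) < i.factorial := by exact_mod_cast Nat.factorial_pos i
  have h1 : (0 : ℝ) < (2 * i + 1).factorial := by exact_mod_cast Nat.factorial_pos _
  rw [abs_mul, abs_div, abs_pow, abs_of_pos h1]
  calc |c i| * (|x| ^ (2 * i + 1) / (2 * i + 1).factorial)
      ≤ (B * (i.factorial / ρ ^ i)) * (R ^ (2 * i + 1) / (i.factorial * i.factorial)) := by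
        gcongr
        · exact h i
        · exact fac_sq' i
    _ = B * R * ((R ^ 2 / ρ) ^ i / i.factorial) := by
        rw [div_pow, ← pow_mul, pow_succ]
        field_simp

theorem hasSum_expo (s : ℝ) : HasSum (fun i : ℕ => s ^ i / i.factorial) (Real.exp s) := by
  rw [Real.exp_eq_exp_ℝ]
  exact NormedSpace.expSeries_div_hasSum_exp s

theorem sum_odd {B ρ : ℝ} (hB : 0 ≤ B) (hρ : 0 < ρ) {c : ℕ → ℝ} (h : Gr B ρ c) (x : ℝ) :
    Summable (fun i => c i * (x ^ (2 * i + 1) / (2 * i + 1).factorial)) := by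
  refine Summable.of_norm_bounded (((hasSum_expo (|x| ^ 2 / ρ)).summable).mul_left (B * |x|)) ?_
  intro i
  rw [Real.norm_eq_abs]
  exact term_odd hB hρ h le_rfl i

theorem sum_even {B ρ : ℝ} (hB : 0 ≤ B) (hρ : 0 < ρ) {c : ℕ → ℝ} (h : Gr B ρ c) (x : ℝ) :
    Summable (fun i => c i * (x ^ (2 * i) / (2 * i).factorial)) := by
  refine Summable.of_norm_bounded (((hasSum_expo (|x| ^ 2 / ρ)).summable).mul_left B) ?_
  intro i
  rw [Real.norm_eq_abs]
  exact term_even hB hρ h le_rfl i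

theorem P_bound {B ρ : ℝ} (hB : 0 ≤ B) (hρ : 0 < ρ) {c : ℕ → ℝ} (h : Gr B ρ c) {x R : ℝ}
    (hx : |x| ≤ R) : |P c x| ≤ B * R * Real.exp (R ^ 2 / ρ) := by
  have := tsum_of_norm_bounded ((hasSum_expo (R ^ 2 / ρ)).mul_left (B * R))
    (f := fun i => c i * (x ^ (2 * i + 1) / (2 * i + 1).factorial)) (fun i => by
      rw [Real.norm_eq_abs]; exact term_odd hB hρ h hx i)
  rwa [Real.norm_eq_abs] at this

theorem Q_bound {B ρ : ℝ} (hB : 0 ≤ B) (hρ : 0 < ρ) {c : ℕ → ℝ} (h : Gr B ρ c) {x R : ℝ}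
    (hx : |x| ≤ R) : |Q c x| ≤ B * Real.exp (R ^ 2 / ρ) := by
  have := tsum_of_norm_bounded ((hasSum_expo (R ^ 2 / ρ)).mul_left B)
    (f := fun i => c i * (x ^ (2 * i) / (2 * i).factorial)) (fun i => by
      rw [Real.norm_eq_abs]; exact term_even hB hρ h hx i)
  rwa [Real.norm_eq_abs] at this

theorem P_deriv {B ρ : ℝ} (hB : 0 ≤ B) (hρ : 0 < ρ) {c : ℕ → ℝ} (h : Gr B ρ c) (x : ℝ) :
    HasDerivAt (P c) (Q c x) x := by
  set R := |x| + 1 with hR
  have hu : Summable (fun i : ℕ => B * ((R ^ 2 / ρ) ^ i / i.factorial)) :=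
    ((hasSum_expo (R ^ 2 / ρ)).summable).mul_left B
  refine hasDerivAt_tsum_of_isPreconnected (t := Metric.ball (0 : ℝ) R) hu Metric.isOpen_ball
    (convex_ball 0 R).isPreconnected (g := fun i y => c i * (y ^ (2 * i + 1) / (2 * i + 1).factorial))
    (g' := fun i y => c i * (y ^ (2 * i) / (2 * i).factorial)) ?_ ?_ (y₀ := x) ?_ ?_ ?_
  · intro i y _
    have h1 := ((hasDerivAt_pow (2 * i + 1) y).div_const ((2 * i + 1).factorial : ℝ)).const_mul (c i)
    refine h1.congr_deriv ?_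
    rw [Nat.factorial_succ, Nat.add_sub_cancel]
    have h2 : ((2 * i).factorial : ℝ) ≠ 0 := by exact_mod_cast (Nat.factorial_pos _).ne'
    push_cast
    have h3 : (2 * (i : ℝ) + 1) ≠ 0 := by positivity
    field_simp
  · intro i y hy
    rw [Real.norm_eq_abs]
    refine term_even hB hρ h ?_ i
    rw [mem_ball_zero_iff, Real.norm_eq_abs] at hy
    exact hy.le
  · rw [mem_ball_zero_iff, Real.norm_eq_abs]; linarith
  · exact sum_odd hB hρ h x
  · rw [mem_ball_zero_iff, Real.norm_eq_abs]; linarith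

theorem Q_deriv {B ρ : ℝ} (hB : 0 ≤ B) (hρ : 0 < ρ) {c : ℕ → ℝ} (h : Gr B ρ c) (x : ℝ) :
    HasDerivAt (Q c) (P (sh c) x) x := by
  have hsh := Gr_sh hB hρ h
  have hB' : 0 ≤ B / ρ := by positivity
  have hρ' : 0 < ρ / 2 := by positivity
  have e : Q c = fun y => c 0 + ∑' i, c (i + 1) * (y ^ (2 * (i + 1)) / (2 * (i + 1)).factorial) := by
    funext y
    unfold Q
    rw [(sum_even hB hρ h y).tsum_eq_zero_add]
    simp
  rw [e]
  refine HasDerivAt.const_add _ ?_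
  set R := |x| + 1 with hR
  have hu : Summable (fun i : ℕ => B / ρ * R * ((R ^ 2 / (ρ / 2)) ^ i / i.factorial)) :=
    ((hasSum_expo (R ^ 2 / (ρ / 2))).summable).mul_left _
  refine hasDerivAt_tsum_of_isPreconnected (t := Metric.ball (0 : ℝ) R) hu Metric.isOpen_ball
    (convex_ball 0 R).isPreconnected
    (g := fun i y => c (i + 1) * (y ^ (2 * (i + 1)) / (2 * (i + 1)).factorial))
    (g' := fun i y => sh c i * (y ^ (2 * i + 1) / (2 * i + 1).factorial)) ?_ ?_ (y₀ := x) ?_ ?_ ?_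
  · intro i y _
    have h1 := ((hasDerivAt_pow (2 * (i + 1)) y).div_const
      ((2 * (i + 1)).factorial : ℝ)).const_mul (c (i + 1))
    refine h1.congr_deriv ?_
    have e1 : 2 * (i + 1) = (2 * i + 1) + 1 := by ring
    rw [e1, Nat.factorial_succ (2 * i + 1), Nat.add_sub_cancel]
    have h2 : ((2 * i + 1).factorial : ℝ) ≠ 0 := by exact_mod_cast (Nat.factorial_pos _).ne'
    push_cast
    have h3 : (2 * (i : ℝ) + 1 + 1) ≠ 0 := by positivity
    unfold sh
    field_simp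
  · intro i y hy
    rw [Real.norm_eq_abs]
    refine term_odd hB' hρ' hsh ?_ i
    rw [mem_ball_zero_iff, Real.norm_eq_abs] at hy
    exact hy.le
  · rw [mem_ball_zero_iff, Real.norm_eq_abs]; linarith
  · exact (summable_nat_add_iff 1).2 (sum_even hB hρ h x)
  · rw [mem_ball_zero_iff, Real.norm_eq_abs]; linarith

theorem P_zero (c : ℕ → ℝ) : P c 0 = 0 := by
  unfold P; simp

theorem P_neg (c : ℕ → ℝ) (x : ℝ) : P c (-x) = - P c x := by
  unfold P
  rw [← tsum_neg]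
  congr 1
  funext i
  rw [Odd.neg_pow ⟨i, rfl⟩]
  ring

theorem Q_zero (c : ℕ → ℝ) : Q c 0 = c 0 := by
  unfold Q
  rw [tsum_eq_single 0]
  · simp
  · intro i hi
    simp [hi]

/-- `t`-derivative. -/
theorem P_time {B ρ : ℝ} (hB : 0 ≤ B) (hρ : 0 < ρ) {W : ℕ → ℝ → ℝ}
    (hW : ∀ i t, HasDerivAt (W i) (W (i + 1) t) t) (h : ∀ t, Gr B ρ (fun i => W i t)) (t x : ℝ) :
    HasDerivAt (fun s => P (fun i => W i s) x) (P (sh fun i => W i t) x) t := by
  have hB' : 0 ≤ B / ρ := by positivity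
  have hρ' : 0 < ρ / 2 := by positivity
  have hu : Summable (fun i : ℕ => B / ρ * |x| * ((|x| ^ 2 / (ρ / 2)) ^ i / i.factorial)) :=
    ((hasSum_expo (|x| ^ 2 / (ρ / 2))).summable).mul_left _
  refine hasDerivAt_tsum_of_isPreconnected (t := univ) hu isOpen_univ isPreconnected_univ
    (g := fun i s => W i s * (x ^ (2 * i + 1) / (2 * i + 1).factorial))
    (g' := fun i s => W (i + 1) s * (x ^ (2 * i + 1) / (2 * i + 1).factorial)) ?_ ?_
    (y₀ := t) (mem_univ _) ?_ (mem_univ _)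
  · intro i y _
    exact (hW i y).mul_const _
  · intro i y _
    rw [Real.norm_eq_abs]
    exact term_odd hB' hρ' (Gr_sh hB hρ (h y)) le_rfl i
  · exact sum_odd hB hρ (h t) x

/-- joint continuity -/
theorem P_cont {B ρ : ℝ} (hB : 0 ≤ B) (hρ : 0 < ρ) {W : ℕ → ℝ → ℝ}
    (hW : ∀ i, Continuous (W i)) (h : ∀ t, Gr B ρ (fun i => W i t)) :
    Continuous (fun p : ℝ × ℝ => P (fun i => W i p.1) p.2) := by
  rw [continuous_iff_continuousAt]
  intro p
  have hcon : ContinuousOn (fun p : ℝ × ℝ => P (fun i => W i p.1) p.2)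
      (univ ×ˢ Metric.ball (0 : ℝ) (|p.2| + 1)) := by
    refine continuousOn_tsum (u := fun i : ℕ => B * (|p.2| + 1) *
      (((|p.2| + 1) ^ 2 / ρ) ^ i / i.factorial)) ?_ ?_ ?_
    · intro i
      exact Continuous.continuousOn (((hW i).comp continuous_fst).mul
        ((continuous_snd.pow _).div_const _))
    · exact ((hasSum_expo _).summable).mul_left _
    · intro i q hq
      rw [Real.norm_eq_abs]
      refine term_odd hB hρ (h q.1) ?_ i
      have := hq.2
      rw [mem_ball_zero_iff, Real.norm_eq_abs] at this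
      exact this.le
  refine hcon.continuousAt ?_
  refine (isOpen_univ.prod Metric.isOpen_ball).mem_nhds ⟨mem_univ _, ?_⟩
  rw [mem_ball_zero_iff, Real.norm_eq_abs]; linarith

end Pool.Agent.V7H94.Trk
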